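import Pool.Agent.Helper566.KFin

open MeasureTheory
open scoped ContDiff InnerProductSpace

namespace Pool.Agent.Results.MP_2d8c9a_an.Multiplicity

/-- Euclidean space `ℝᴺ`. -/
abbrev E (N : ℕ) : Type := EuclideanSpace ℝ (Fin N)

/-- Lebesgue measure on `Ω`. -/
noncomputable def dx {N : ℕ} (Ω : Set (E N)) : Measure (E N) := volume.restrict Ω

/-- The Hilbert space `L²(Ω)`. -/
abbrev L2 {N : ℕ} (Ω : Set (E N)) : Type := Lp ℝ 2 (dx Ω)

/-- The Hilbert space `L²(Ω; ℝᴺ)`. -/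
abbrev L2v {N : ℕ} (Ω : Set (E N)) : Type := Lp (E N) 2 (dx Ω)

/-- An element of `L²(Ω)` as a function (defined almost everywhere in `Ω`). -/
noncomputable def fn {N : ℕ} {Ω : Set (E N)} (u : L2 Ω) : E N → ℝ := u

/-- An element of `L²(Ω; ℝᴺ)` as a vector field (defined almost everywhere in `Ω`). -/
noncomputable def vf {N : ℕ} {Ω : Set (E N)} (g : L2v Ω) : E N → E N := g

/-- The inner product of `ℝᴺ`. -/
noncomputable def dot {N : ℕ} (x y : E N) : ℝ := ⟪x, y⟫_ℝ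

/-- The integral over `Ω`. -/
noncomputable def integral {N : ℕ} (Ω : Set (E N)) (f : E N → ℝ) : ℝ := ∫ x, f x ∂(dx Ω)

/-- `φ ∈ C_c^∞(Ω)`. -/
def IsTest {N : ℕ} (Ω : Set (E N)) (φ : E N → ℝ) : Prop :=
  ContDiff ℝ ∞ φ ∧ HasCompactSupport φ ∧ tsupport φ ⊆ Ω

/-- The classical gradient of `φ`. -/
noncomputable def grad {N : ℕ} (φ : E N → ℝ) : E N → E N := gradient φ

/-- The set of pairs `(φ, ∇φ)`, `φ ∈ C_c^∞(Ω)`, in `L²(Ω) × L²(Ω; ℝᴺ)`. -/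
def TestPairs {N : ℕ} (Ω : Set (E N)) : Set (L2 Ω × L2v Ω) :=
  {p | ∃ φ : E N → ℝ, IsTest Ω φ ∧ fn p.1 =ᵐ[dx Ω] φ ∧ vf p.2 =ᵐ[dx Ω] grad φ}

/-- The Sobolev space `H¹₀(Ω)`: its element `u` is represented by the pair `p = (u, ∇u)`, and the
space is the closure of `{(φ, ∇φ) | φ ∈ C_c^∞(Ω)}` in `L²(Ω) × L²(Ω; ℝᴺ)`. -/
def H01 {N : ℕ} (Ω : Set (E N)) : Set (L2 Ω × L2v Ω) := closure (TestPairs Ω)

/-- The critical Sobolev exponent `2⋆ = 2N / (N - 2)`. -/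
noncomputable def critExp (N : ℕ) : ℝ := 2 * (N : ℝ) / ((N : ℝ) - 2)

/-- `‖u‖² = ∫_Ω |∇u|² dx` for `p = (u, ∇u)`. -/
noncomputable def gradSq {N : ℕ} {Ω : Set (E N)} (p : L2 Ω × L2v Ω) : ℝ :=
  integral Ω fun x => ‖vf p.2 x‖ ^ 2

/-- The functional `𝓔_v(u)` for `p = (u, ∇u)`. -/
noncomputable def energy {N : ℕ} {Ω : Set (E N)} (a b lam : ℝ) (v : L2 Ω)
    (p : L2 Ω × L2v Ω) : ℝ :=
  a / 2 * gradSq p + b / 4 * gradSq p ^ 2
    - 1 / critExp N * (integral Ω fun x => |fn p.1 x| ^ critExp N)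
    - lam / 2 * (integral Ω fun x => (fn p.1 x - fn v x) ^ 2)

/-- `p = (u, ∇u)` with `u ∈ H¹₀(Ω)` a weak solution of
`-(a + b ‖u‖²) Δu = |u|^(2⋆ - 2) u + λ (u - v)` in `Ω`, `u = 0` on `∂Ω`. -/
def IsWeakSol {N : ℕ} {Ω : Set (E N)} (a b lam : ℝ) (v : L2 Ω) (p : L2 Ω × L2v Ω) : Prop :=
  p ∈ H01 Ω ∧ ∀ q ∈ H01 Ω,
    (a + b * gradSq p) * (integral Ω fun x => dot (vf p.2 x) (vf q.2 x)) =
      (integral Ω fun x => |fn p.1 x| ^ (critExp N - 2) * fn p.1 x * fn q.1 x)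
        + lam * (integral Ω fun x => (fn p.1 x - fn v x) * fn q.1 x)

/-- `p = (u, ∇u)` with `u` a global minimizer of `𝓔_v` on `H¹₀(Ω)`. -/
def IsGlobalMin {N : ℕ} {Ω : Set (E N)} (a b lam : ℝ) (v : L2 Ω) (p : L2 Ω × L2v Ω) : Prop :=
  p ∈ H01 Ω ∧ ∀ q ∈ H01 Ω, energy a b lam v p ≤ energy a b lam v q

/-- `C ⊆ L²(Ω)` is convex and its closure contains `H¹₀(Ω)`. -/
def IsAdmissible {N : ℕ} {Ω : Set (E N)} (C : Set (L2 Ω)) : Prop :=
  Convex ℝ C ∧ ∀ p ∈ H01 Ω, p.1 ∈ closure C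

/-- The multiplicity property of `(a, b)` on `Ω`: for all sufficiently large `λ` and every convex
`C ⊆ L²(Ω)` whose closure contains `H¹₀(Ω)` there is `v ∈ C` such that `𝓔_v` has two different
global minimizers and `(P_λ)` has three different weak solutions, among them these two. -/
def MultiplicityProperty {N : ℕ} (Ω : Set (E N)) (a b : ℝ) : Prop :=
  ∃ lam₀ : ℝ, 0 < lam₀ ∧ ∀ lam : ℝ, lam₀ ≤ lam →
    ∀ C : Set (L2 Ω), IsAdmissible C →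
      ∃ v ∈ C, ∃ p₁ p₂ p₃ : L2 Ω × L2v Ω,
        p₁.1 ≠ p₂.1 ∧ p₁.1 ≠ p₃.1 ∧ p₂.1 ≠ p₃.1 ∧
        IsGlobalMin a b lam v p₁ ∧ IsGlobalMin a b lam v p₂ ∧
        IsWeakSol a b lam v p₁ ∧ IsWeakSol a b lam v p₂ ∧ IsWeakSol a b lam v p₃

/-- Sanity check: the weak gradient of an element of `H¹₀(Ω)` is determined by the element. -/
theorem gradient_unique {N : ℕ} {Ω : Set (E N)} (hΩ : IsOpen Ω) (hb : Bornology.IsBounded Ω)
    {u : L2 Ω} {g g' : L2v Ω} (h : (u, g) ∈ H01 Ω) (h' : (u, g') ∈ H01 Ω) : g = g' := by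
  have h1 : (u, g) ∈ (Helper566.Kir.TP Ω).topologicalClosure := h
  have h2 : (u, g') ∈ (Helper566.Kir.TP Ω).topologicalClosure := h'
  have h3 := Submodule.sub_mem _ h1 h2
  have h4 := Helper566.Kir.H01_unique hΩ hb (p := (u, g) - (u, g')) h3 (sub_self u)
  exact sub_eq_zero.1 h4

/-- Sanity check: the critical integral is finite on `H¹₀(Ω)`. -/
theorem integrable_crit {N : ℕ} (hN : 4 < N) {Ω : Set (E N)} (hΩ : IsOpen Ω)
    (hb : Bornology.IsBounded Ω) {p : L2 Ω × L2v Ω} (hp : p ∈ H01 Ω) :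
    Integrable (fun x => |fn p.1 x| ^ critExp N) (dx Ω) := by
  obtain ⟨-, i, -, hi, hi2⟩ := Helper566.Kir.exists_incl (Ω := Ω) (by omega) hΩ.measurableSet hb
  obtain ⟨S, -, hS⟩ := Helper566.Kir.exists_Sob hN hb hi
  obtain ⟨m, hm⟩ := hi2 p hp
  have h := (Helper566.Kir.integral_pow (Helper566.Kir.critExp_bounds hN).1 (hS ⟨p.2, m⟩).1).1
  rw [hm] at h
  exact h

/-- For every `N > 4`, every nonempty bounded open set `Ω ⊆ ℝᴺ` (in particular every bounded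
domain) and all `a ≥ 0`, `b > 0`, the pair `(a, b)` has the multiplicity property. -/
theorem result : ∀ N : ℕ, 4 < N → ∀ Ω : Set (E N), IsOpen Ω → Ω.Nonempty →
    Bornology.IsBounded Ω → ∀ a b : ℝ, 0 ≤ a → 0 < b → MultiplicityProperty Ω a b := by
  intro N hN Ω hΩ hne hb a b ha hb'
  obtain ⟨l, hl, h⟩ := Helper566.Kir.multiplicity hN hΩ hne hb ha hb'
  exact ⟨l, hl, fun lam hlam C hC => h lam hlam C hC.1 hC.2⟩

end Pool.Agent.Results.MP_2d8c9a_an.Multiplicity
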